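import Pool.Agent.helper22.FI.SpecA

set_option autoImplicit false

namespace Pool.Agent.FI

open Pool.Agent.helper58.DC Pool.Agent.DI Pool.Agent.GR Pool.Agent.OB

section

variable {G : Type} [Group G]

theorem CLS_pos {L : Subgroup G} {y x : G} (h : ∃ l ∈ L, l * y * l⁻¹ = x) : cls L y x = 1 := by
  unfold cls
  exact if_pos h

theorem CLS_neg {L : Subgroup G} {y x : G} (h : ¬ ∃ l ∈ L, l * y * l⁻¹ = x) : cls L y x = 0 := by
  unfold cls
  exact if_neg h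

theorem CLS_congr {L L' : Subgroup G} {y y' x x' : G} (h : (∃ l ∈ L, l * y * l⁻¹ = x) ↔ ∃ l ∈ L', l * y' * l⁻¹ = x') :
    cls L y x = cls L' y' x' := by
  by_cases h1 : ∃ m ∈ L, m * y * m⁻¹ = x
  · rw [CLS_pos h1, CLS_pos (h.1 h1)]
  · rw [CLS_neg h1, CLS_neg fun h2 => h1 (h.2 h2)]

theorem CLS_inv (L : Subgroup G) (y : G) (l : G) (hl : l ∈ L) (x : G) :
    cls L y (l * x * l⁻¹) = cls L y x := by
  refine CLS_congr ⟨?_, ?_⟩
  · rintro ⟨m, hm, e⟩
    refine ⟨l⁻¹ * m, L.mul_mem (L.inv_mem hl) hm, ?_⟩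
    calc l⁻¹ * m * y * (l⁻¹ * m)⁻¹ = l⁻¹ * (m * y * m⁻¹) * l := by group
      _ = l⁻¹ * (l * x * l⁻¹) * l := by rw [e]
      _ = x := by group
  · rintro ⟨m, hm, e⟩
    refine ⟨l * m, L.mul_mem hl hm, ?_⟩
    calc l * m * y * (l * m)⁻¹ = l * (m * y * m⁻¹) * l⁻¹ := by group
      _ = l * x * l⁻¹ := by rw [e]

theorem CLS_base (L : Subgroup G) (y : G) (l : G) (hl : l ∈ L) : cls L (l * y * l⁻¹) = cls L y := by
  funext x
  refine CLS_congr ⟨?_, ?_⟩
  · rintro ⟨m, hm, e⟩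
    refine ⟨m * l, L.mul_mem hm hl, ?_⟩
    rw [← e]
    group
  · rintro ⟨m, hm, e⟩
    refine ⟨m * l⁻¹, L.mul_mem hm (L.inv_mem hl), ?_⟩
    rw [← e]
    group

theorem CLS_out {L : Subgroup G} {y x : G} (hy : y ∈ L) (hx : x ∉ L) : cls L y x = 0 := by
  refine CLS_neg ?_
  rintro ⟨m, hm, e⟩
  exact hx (e ▸ L.mul_mem (L.mul_mem hm hy) (L.inv_mem hm))

theorem CLS_out' {L : Subgroup G} {y x : G} (hy : y ∉ L) (hx : x ∈ L) : cls L y x = 0 := by
  refine CLS_neg ?_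
  rintro ⟨m, hm, e⟩
  have h1 : m⁻¹ * x * m ∈ L := L.mul_mem (L.mul_mem (L.inv_mem hm) hx) hm
  rw [← e] at h1
  have h2 : m⁻¹ * (m * y * m⁻¹) * m = y := by group
  rw [h2] at h1
  exact hy h1

theorem CLS_int (L : Subgroup G) (y x : G) : IsIntegral ℤ (cls L y x) := by
  unfold cls
  split_ifs
  · exact isIntegral_one
  · exact isIntegral_zero

end

theorem CLS (h1 : C3_stmt) : CLS_stmt := by
  intro G _ _ L y
  refine ⟨CLS_inv L y, fun hy => ⟨CLS_inv L y, fun x hx => CLS_out hy hx⟩, CLS_int L y, ?_, ?_, CLS_base L y, ?_, ?_, ?_⟩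
  · intro x
    constructor
    · intro h
      by_contra h2
      rw [CLS_neg h2] at h
      exact zero_ne_one h
    · exact CLS_pos
  · intro x
    by_cases h : ∃ l ∈ L, l * y * l⁻¹ = x
    · exact Or.inr (CLS_pos h)
    · exact Or.inl (CLS_neg h)
  · intro ψ hψ hy
    unfold cc
    have h : ∀ x, cls L y x * ψ x = 0 := by
      intro x
      by_cases hx : x ∈ L
      · rw [CLS_out' hy hx, zero_mul]
      · rw [hψ x hx, mul_zero]
    rw [finsum_congr h, finsum_zero, zero_div]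
  · intro ψ
    rw [((h1 G).2.1 ψ y).1]
    congr 1
    funext x
    by_cases h : x ∈ conjugatesOf y
    · rw [if_pos h]
      obtain ⟨c, hc⟩ := isConj_iff.1 h
      exact (CLS_pos ⟨c, Subgroup.mem_top c, hc⟩).symm
    · rw [if_neg h]
      refine (CLS_neg ?_).symm
      rintro ⟨c, -, hc⟩
      exact h (isConj_iff.2 ⟨c, hc⟩)
  · intro H hH ψ hψ
    exact (h1 G).1 H ψ hψ _ (fun l hl x => CLS_inv L y l (hH hl) x) (CLS_int L y)

end Pool.Agent.FI
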