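import Pool.Agent.helper22.FI.SpecA

set_option autoImplicit false

namespace Pool.Agent.FI

open Pool.Agent.helper58.DC Pool.Agent.DI Pool.Agent.GR Pool.Agent.OB

theorem CNTL_pg {p : ℕ} {G : Type} [Group G] (R : Subgroup G) (hR : IsPGroup p R) (g : G) :
    IsPGroup p (R.map (MulAut.conj g).toMonoidHom) := hR.map _

theorem CNTL (h1 : CLS_stmt) (h2 : SBI_stmt) (h3 : SYL_stmt) : CNTL_stmt := by
  intro p M hS G _ _ L R hR hRL η hη ψ hsb D x hD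
  have hp : Fact p.Prime := ⟨hS.pr⟩
  have h4 : ¬ InM M (cc η (cls L x)) := fun h => hD.ne (((h2 p M hS G L η ψ hsb).2 x hD.mem).1 h)
  have h5 : ∃ u, cls L x u * η u ≠ 0 := by
    by_contra h6
    push Not at h6
    apply h4
    unfold cc
    rw [finsum_congr h6, finsum_zero, zero_div]
    exact InM.zero hS
  obtain ⟨u, hu⟩ := h5
  have hu1 : cls L x u = 1 := ((h1 G L x).2.2.2.2.1 u).resolve_left (left_ne_zero_of_mul hu)
  obtain ⟨l, hl, e⟩ := ((h1 G L x).2.2.2.1 u).1 hu1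
  have hu2 : u ∈ L ⊓ cz R := by
    by_contra h6
    exact right_ne_zero_of_mul hu (hη.1 u h6)
  have hu3 := Subgroup.mem_centralizer_iff.1 hu2.2
  have h6 : R.map (MulAut.conj l⁻¹).toMonoidHom ≤ Cz L x := by
    rintro z ⟨r, hr, rfl⟩
    have h7 : (MulAut.conj l⁻¹).toMonoidHom r = l⁻¹ * r * l := by
      change l⁻¹ * r * l⁻¹⁻¹ = _
      rw [inv_inv]
    rw [h7]
    refine ⟨L.mul_mem (L.mul_mem (L.inv_mem hl) (hRL hr)) hl, ?_⟩
    refine Subgroup.mem_centralizer_iff.2 ?_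
    rintro z rfl
    have h8 := hu3 r hr
    rw [← e] at h8
    calc z * (l⁻¹ * r * l) = l⁻¹ * (l * z * l⁻¹ * r) * l := by group
      _ = l⁻¹ * (r * (l * z * l⁻¹)) * l := by rw [h8]
      _ = l⁻¹ * r * l * z := by group
  obtain ⟨k, hk, hk2, -⟩ := (h3 p G).2.2.1 D (Cz L x) _ hD.pg hD.le hD.card (CNTL_pg R hR l⁻¹) h6
  refine ⟨k * l⁻¹, L.mul_mem hk.1 (L.inv_mem hl), fun r hr => ?_⟩
  have h9 := hk2 (l⁻¹ * r * l⁻¹⁻¹) ⟨r, hr, rfl⟩
  have h10 : k * (l⁻¹ * r * l⁻¹⁻¹) * k⁻¹ = k * l⁻¹ * r * (k * l⁻¹)⁻¹ := by group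
  rwa [h10] at h9

end Pool.Agent.FI
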