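import Pool.Agent.helper22.FI.SpecA

set_option autoImplicit false

namespace Pool.Agent.FI

open Pool.Agent.helper58.DC Pool.Agent.DI Pool.Agent.GR Pool.Agent.OB

theorem DCM_decomp {G : Type} [Group G] [Finite G] (h1 : CLS_stmt) (L : Subgroup G) :
    ∃ T : Finset G, ∀ z : G → ℂ, (∀ l ∈ L, ∀ x, z (l * x * l⁻¹) = z x) → ∀ x, z x = ∑ y ∈ T, z y * cls L y x := by
  classical
  cases nonempty_fintype G
  let s : Setoid G :=
    { r := fun a b => ∃ l ∈ L, l * a * l⁻¹ = b
      iseqv :=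
        { refl := fun a => ⟨1, L.one_mem, by group⟩
          symm := by
            rintro a b ⟨l, hl, e⟩
            exact ⟨l⁻¹, L.inv_mem hl, by rw [← e]; group⟩
          trans := by
            rintro a b c ⟨l, hl, e⟩ ⟨m, hm, e'⟩
            exact ⟨m * l, L.mul_mem hm hl, by rw [← e', ← e]; group⟩ } }
  refine ⟨Finset.univ.image (fun a : G => Quotient.out (Quotient.mk s a)), fun z hz x => ?_⟩
  have hx : ∃ l ∈ L, l * Quotient.out (Quotient.mk s x) * l⁻¹ = x := Quotient.mk_out (s := s) x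
  rw [Finset.sum_eq_single (Quotient.out (Quotient.mk s x))]
  · rw [((h1 G L _).2.2.2.1 x).2 hx, mul_one]
    obtain ⟨l, hl, e⟩ := hx
    have h2 := hz l hl (Quotient.out (Quotient.mk s x))
    rw [e] at h2
    exact h2
  · intro y hy hne
    obtain ⟨a, -, ha⟩ := Finset.mem_image.1 hy
    rcases (h1 G L y).2.2.2.2.1 x with h2 | h2
    · rw [h2, mul_zero]
    · exfalso
      apply hne
      obtain ⟨l, hl, e⟩ := ((h1 G L y).2.2.2.1 x).1 h2
      have h3 : ∃ m ∈ L, m * y * m⁻¹ = a := by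
        rw [← ha]
        exact Quotient.mk_out (s := s) a
      have h4 : Quotient.mk s a = Quotient.mk s x := by
        refine Quotient.sound ?_
        refine Setoid.trans (b := y) (Setoid.symm ?_) ?_
        · exact h3
        · exact ⟨l, hl, e⟩
      change y = _
      rw [← ha, h4]
  · intro h2
    exact absurd (Finset.mem_image_of_mem _ (Finset.mem_univ x)) h2

theorem DCM_cc {G : Type} [Group G] [Finite G] (ψ : G → ℂ) (T : Finset G) (c : G → ℂ) (f : G → G → ℂ) (z : G → ℂ)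
    (hz : ∀ x, z x = ∑ y ∈ T, c y * f y x) : cc ψ z = ∑ y ∈ T, c y * cc ψ (f y) := by
  classical
  cases nonempty_fintype G
  unfold cc
  simp only [finsum_eq_sum_of_fintype, hz]
  have h2 : ∀ x, (∑ y ∈ T, c y * f y x) * ψ x = ∑ y ∈ T, c y * (f y x * ψ x) := by
    intro x
    rw [Finset.sum_mul]
    exact Finset.sum_congr rfl fun y _ => by ring
  rw [Finset.sum_congr rfl fun x _ => h2 x, Finset.sum_comm, Finset.sum_div]
  refine Finset.sum_congr rfl fun y _ => ?_
  rw [← Finset.mul_sum, mul_div_assoc]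

theorem DCM_mc {M : Ideal (integralClosure ℤ ℂ)} {ι : Type} (T : Finset ι) (f g : ι → ℂ) (h : ∀ i ∈ T, Mcong M (f i) (g i)) :
    Mcong M (∑ i ∈ T, f i) (∑ i ∈ T, g i) := by
  classical
  induction T using Finset.induction_on with
  | empty => exact ⟨0, M.zero_mem, by simp⟩
  | insert a s ha ih =>
    rw [Finset.sum_insert ha, Finset.sum_insert ha]
    obtain ⟨c, hc, e⟩ := h a (Finset.mem_insert_self a s)
    obtain ⟨d, hd, e'⟩ := ih fun i hi => h i (Finset.mem_insert_of_mem hi)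
    refine ⟨c + d, M.add_mem hc hd, ?_⟩
    push_cast
    rw [← e, ← e']
    ring

theorem DCM_mul {M : Ideal (integralClosure ℤ ℂ)} {a b z : ℂ} (hz : IsIntegral ℤ z) (h : Mcong M a b) :
    Mcong M (z * a) (z * b) := by
  obtain ⟨c, hc, e⟩ := h
  refine ⟨(⟨z, hz⟩ : integralClosure ℤ ℂ) * c, M.mul_mem_left _ hc, ?_⟩
  push_cast
  rw [← e]
  ring

theorem DCM (h1 : CLS_stmt) : DCM_stmt := by
  intro G _ _ L M p hS
  obtain ⟨T, hT⟩ := DCM_decomp h1 L
  refine ⟨?_, ?_⟩
  · intro ψ z hz hi hc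
    have h2 : cc ψ z = ∑ y ∈ T, z y * cc ψ (cls L y) := DCM_cc ψ T z (fun y => cls L y) z (hT z hz)
    rw [h2]
    refine ⟨IntAt.sum hS T fun y _ => (hi y).mul hS (hc y), fun h3 => InM.sum hS T fun y _ => ?_⟩
    rcases h3 y with h4 | h4
    · exact InM.mul_right hS h4 (hc y)
    · exact InM.mul_left hS (hi y) h4
  · intro η ψ
    constructor
    · intro h y hy
      exact h _ ((h1 G L y).2.1 hy) (h1 G L y).2.2.1
    · intro h z hz hi
      rw [DCM_cc η T z (fun y => cls L y) z (hT z hz.1), DCM_cc ψ T z (fun y => cls L y) z (hT z hz.1)]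
      refine DCM_mc T _ _ fun y _ => ?_
      by_cases hy : y ∈ L
      · exact DCM_mul (hi y) (h y hy)
      · rw [hz.2 y hy, zero_mul, zero_mul]
        exact ⟨0, M.zero_mem, by simp⟩

end Pool.Agent.FI
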