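import Pool.Agent.helper22.FI.SpecA

set_option autoImplicit false

namespace Pool.Agent.FI

open Pool.Agent.helper58.DC Pool.Agent.DI Pool.Agent.GR Pool.Agent.OB

theorem ORP_fib {p : ℕ} {M : Ideal (integralClosure ℤ ℂ)} (hS : Setup p M) {R : Type} [Group R] [Finite R]
    (hR : IsPGroup p R) {X : Type} [Fintype X] [MulAction R X] (w f : X → ℂ) (hw : ∀ x, IntAt M (w x))
    (hinv : ∀ (r : R) x, w (r • x) = w x) (hf : ∀ x, x ∈ MulAction.fixedPoints R X → f x = 0)
    (hf' : ∀ x, x ∉ MulAction.fixedPoints R X → f x = w x) (a : X) (T : Finset X)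
    (hT : ∀ x, x ∈ T ↔ x ∈ MulAction.orbit R a) : InM M (∑ x ∈ T, f x) := by
  have hp : Fact p.Prime := ⟨hS.pr⟩
  have hpM : InM M (p : ℂ) := by
    have := InM.coe hS hS.mem
    simpa using this
  by_cases ha : a ∈ MulAction.fixedPoints R X
  · have h1 : ∑ x ∈ T, f x = 0 := by
      refine Finset.sum_eq_zero fun x hx => ?_
      rw [MulAction.mem_fixedPoints'.1 ha x ((hT x).1 hx)]
      exact hf a ha
    rw [h1]
    exact InM.zero hS
  · have h1 : ∀ x ∈ T, f x = w a := by
      intro x hx
      have h2 := (hT x).1 hx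
      rw [hf' x]
      · obtain ⟨r, hr⟩ := h2
        rw [← hinv r a]
        exact congrArg w hr.symm
      · intro h3
        have h4 : a ∈ MulAction.orbit R x := MulAction.mem_orbit_symm.1 h2
        rw [MulAction.mem_fixedPoints'.1 h3 a h4] at ha
        exact ha h3
    rw [Finset.sum_congr rfl h1, Finset.sum_const, nsmul_eq_mul]
    obtain ⟨n, hn⟩ := hR.card_orbit a
    have h2 : T.card = Nat.card (MulAction.orbit R a) := by
      have h3 : (T : Set X) = MulAction.orbit R a := by
        ext x
        exact hT x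
      rw [← h3]
      simp
    rw [h2, hn]
    have h3 : n ≠ 0 := by
      rintro rfl
      apply ha
      rw [pow_zero, Nat.card_eq_one_iff_unique] at hn
      obtain ⟨h4, -⟩ := hn
      refine MulAction.mem_fixedPoints'.2 fun b hb => ?_
      have h5 := h4.elim ⟨b, hb⟩ ⟨a, MulAction.mem_orbit_self a⟩
      exact congrArg Subtype.val h5
    push_cast
    exact InM.mul_right hS (InM.pow hS hpM h3) (hw a)

theorem ORP : ORP_stmt := by
  intro p M hS R _ _ hR X _ _ w hw hinv
  classical
  cases nonempty_fintype X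
  cases nonempty_fintype (Quotient (MulAction.orbitRel R X))
  have h1 : ∑ᶠ x, w x - ∑ᶠ x ∈ MulAction.fixedPoints R X, w x =
      ∑ x, (if x ∈ MulAction.fixedPoints R X then 0 else w x) := by
    rw [finsum_eq_sum_of_fintype, finsum_eq_sum_of_fintype, ← Finset.sum_sub_distrib]
    refine Finset.sum_congr rfl fun x _ => ?_
    by_cases hx : x ∈ MulAction.fixedPoints R X
    · rw [if_pos hx, finsum_eq_if, if_pos hx, sub_self]
    · rw [if_neg hx, finsum_eq_if, if_neg hx, sub_zero]
  rw [h1, ← Finset.sum_fiberwise Finset.univ (fun x : X => Quotient.mk (MulAction.orbitRel R X) x)]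
  refine InM.sum hS _ fun q _ => ?_
  obtain ⟨a, rfl⟩ := Quotient.exists_rep q
  refine ORP_fib hS hR w _ hw hinv (fun x hx => if_pos hx) (fun x hx => if_neg hx) a _ fun x => ?_
  rw [Finset.mem_filter]
  constructor
  · rintro ⟨-, h2⟩
    exact MulAction.orbitRel_apply.1 (Quotient.exact h2)
  · intro h2
    exact ⟨Finset.mem_univ x, Quotient.sound (MulAction.orbitRel_apply.2 h2)⟩

end Pool.Agent.FI
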