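import Pool.Agent.helper22.FI.SpecA

set_option autoImplicit false

namespace Pool.Agent.FI

open Pool.Agent.helper58.DC Pool.Agent.DI Pool.Agent.GR Pool.Agent.OB

theorem SBI_cls_inv {G : Type} [Group G] (L : Subgroup G) (y : G) (l : G) (hl : l ∈ L) (x : G) :
    cls L y (l * x * l⁻¹) = cls L y x := by
  unfold cls
  have h : (∃ m ∈ L, m * y * m⁻¹ = l * x * l⁻¹) ↔ ∃ m ∈ L, m * y * m⁻¹ = x := by
    constructor
    · rintro ⟨m, hm, e⟩
      refine ⟨l⁻¹ * m, L.mul_mem (L.inv_mem hl) hm, ?_⟩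
      calc l⁻¹ * m * y * (l⁻¹ * m)⁻¹ = l⁻¹ * (m * y * m⁻¹) * l := by group
        _ = l⁻¹ * (l * x * l⁻¹) * l := by rw [e]
        _ = x := by group
    · rintro ⟨m, hm, e⟩
      refine ⟨l * m, L.mul_mem hl hm, ?_⟩
      calc l * m * y * (l * m)⁻¹ = l * (m * y * m⁻¹) * l⁻¹ := by group
        _ = l * x * l⁻¹ := by rw [e]
  by_cases h1 : ∃ m ∈ L, m * y * m⁻¹ = x
  · rw [if_pos h1, if_pos (h.2 h1)]
  · rw [if_neg h1, if_neg fun h2 => h1 (h.1 h2)]

theorem SBI_cls_CF {G : Type} [Group G] (L : Subgroup G) (y : G) (hy : y ∈ L) : CF L (cls L y) := by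
  refine ⟨fun l hl x => SBI_cls_inv L y l hl x, fun x hx => ?_⟩
  unfold cls
  refine if_neg ?_
  rintro ⟨m, hm, e⟩
  exact hx (e ▸ L.mul_mem (L.mul_mem hm hy) (L.inv_mem hm))

theorem SBI_cls_int {G : Type} [Group G] (L : Subgroup G) (y x : G) : IsIntegral ℤ (cls L y x) := by
  unfold cls
  split_ifs
  · exact isIntegral_one
  · exact isIntegral_zero

theorem SBI_cc_mul {G : Type} [Group G] [Finite G] (ψ z : G → ℂ) (b : ℂ) :
    cc ψ (fun x => z x * b) = b * cc ψ z := by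
  unfold cc
  have h : ∑ᶠ x, z x * b * ψ x = b * ∑ᶠ x, z x * ψ x := by
    have := Fintype.ofFinite G
    rw [finsum_eq_sum_of_fintype, finsum_eq_sum_of_fintype, Finset.mul_sum]
    exact Finset.sum_congr rfl fun x _ => by ring
  rw [h, mul_div_assoc]

theorem SBIa : SBI_stmt := by
  intro p M h G _ _ L η ψ hs
  constructor
  · intro z hz hi
    have := Fintype.ofFinite G
    obtain ⟨b, hb, hb'⟩ := IntAt.common h Finset.univ fun x _ => hi x
    have h1 := hs (fun x => z x * (b : ℂ)) ⟨fun l hl x => ?_, fun x hx => ?_⟩ fun x => hb' x (Finset.mem_univ x)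
    · have h2 := InM.of_mcong h h1
      rw [SBI_cc_mul, SBI_cc_mul, ← mul_sub] at h2
      obtain ⟨c, d, hc, hd, e⟩ := h2
      refine ⟨c, b * d, hc, h.mul_not_mem hb hd, ?_⟩
      push_cast
      rw [← e]
      ring
    · change z (l * x * l⁻¹) * (b : ℂ) = z x * (b : ℂ)
      rw [hz.1 l hl x]
    · change z x * (b : ℂ) = 0
      rw [hz.2 x hx, zero_mul]
  · intro y hy
    have h1 := InM.of_mcong h (hs _ (SBI_cls_CF L y hy) fun x => SBI_cls_int L y x)
    constructor
    · intro h2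
      have h3 := h2.sub h h1
      rwa [sub_sub_cancel] at h3
    · intro h2
      have h3 := h1.add h h2
      rwa [sub_add_cancel] at h3

end Pool.Agent.FI
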