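import Pool.Agent.helper22.FI.SpecA

set_option autoImplicit false

namespace Pool.Agent.FI

open Pool.Agent.helper58.DC Pool.Agent.DI Pool.Agent.GR Pool.Agent.OB

section

variable {p : ℕ} [hp : Fact p.Prime] {G : Type} [Group G] [Finite G]

theorem SYL_dvd {a b : ℕ} (hb : b ≠ 0) (h : a ∣ b) : padicValNat p a ≤ padicValNat p b :=
  (padicValNat_dvd_iff_le hb).1 (pow_padicValNat_dvd.trans h)

theorem SYL_a (R K : Subgroup G) (hR : IsPGroup p R) (h : R ≤ K) : Nat.card R ≤ pp p K ∧ Nat.card R ∣ pp p K := by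
  obtain ⟨n, hn⟩ := IsPGroup.iff_card.1 hR
  have h1 : Nat.card R ∣ Nat.card K := Subgroup.card_dvd_of_le h
  have h2 : Nat.card R ∣ pp p K := by
    unfold pp
    rw [hn]
    rw [hn] at h1
    exact pow_dvd_pow p ((padicValNat_dvd_iff_le Nat.card_pos.ne').1 h1)
  exact ⟨Nat.le_of_dvd (pow_pos hp.out.pos _) h2, h2⟩

theorem SYL_pp (K : Subgroup G) : pp p K = p ^ (Nat.card K).factorization p := by
  unfold pp
  rw [Nat.factorization_def _ hp.out]

theorem SYL_sub {R K : Subgroup G} (hR : IsPGroup p R) : IsPGroup p (R.subgroupOf K) := by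
  intro x
  obtain ⟨k, hk⟩ := hR ⟨(x : K), x.2⟩
  refine ⟨k, ?_⟩
  have h1 : (((x : K) : G)) ^ p ^ k = 1 := by
    have h2 := congrArg (Subtype.val : R → G) hk
    exact h2
  apply Subtype.ext
  apply Subtype.ext
  exact h1

theorem SYL_b (R K : Subgroup G) (hR : IsPGroup p R) (h : R ≤ K) :
    ∃ S : Subgroup G, R ≤ S ∧ S ≤ K ∧ IsPGroup p S ∧ Nat.card S = pp p K := by
  obtain ⟨Q, hQ⟩ := (SYL_sub (K := K) hR).exists_le_sylow
  refine ⟨(Q : Subgroup K).map K.subtype, ?_, ?_, ?_, ?_⟩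
  · intro r hr
    exact ⟨⟨r, h hr⟩, hQ hr, rfl⟩
  · exact Subgroup.map_subtype_le _
  · exact Q.isPGroup'.map _
  · rw [SYL_pp, ← Q.card_eq_multiplicity]
    exact (Nat.card_congr ((Q : Subgroup K).equivMapOfInjective K.subtype K.subtype_injective).toEquiv).symm

theorem SYL_card (K : Subgroup G) (g : G) : Nat.card (K.map (MulAut.conj g).toMonoidHom) = Nat.card K :=
  (Nat.card_congr (K.equivMapOfInjective (MulAut.conj g).toMonoidHom (MulAut.conj g).injective).toEquiv).symm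

theorem SYL_c (S K R : Subgroup G) (hS : IsPGroup p S) (hSK : S ≤ K) (hc : Nat.card S = pp p K) (hR : IsPGroup p R)
    (hRK : R ≤ K) :
    ∃ k ∈ K, (∀ r ∈ R, k * r * k⁻¹ ∈ S) ∧ (Nat.card R = pp p K → R.map (MulAut.conj k).toMonoidHom = S) := by
  have h1 : Nat.card (S.subgroupOf K) = p ^ (Nat.card K).factorization p := by
    rw [← SYL_pp, ← hc]
    exact Nat.card_congr (Subgroup.subgroupOfEquivOfLe hSK).toEquiv
  let P : Sylow p K := Sylow.ofCard (S.subgroupOf K) h1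
  obtain ⟨Q, hQ⟩ := (SYL_sub (K := K) hR).exists_le_sylow
  obtain ⟨k, hk⟩ := MulAction.exists_smul_eq K Q P
  have h2 : ∀ r ∈ R, (k : G) * r * (k : G)⁻¹ ∈ S := by
    intro r hr
    have h3 : (⟨r, hRK hr⟩ : K) ∈ (Q : Subgroup K) := hQ hr
    have h4 : k * (⟨r, hRK hr⟩ : K) * k⁻¹ ∈ ((k • Q : Sylow p K) : Subgroup K) := by
      rw [Sylow.coe_subgroup_smul]
      exact ⟨_, h3, rfl⟩
    rw [hk] at h4
    exact h4
  refine ⟨k, k.2, h2, fun h3 => ?_⟩
  refine Subgroup.eq_of_le_of_card_ge ?_ ?_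
  · rintro x ⟨r, hr, rfl⟩
    exact h2 r hr
  · rw [SYL_card, h3, hc]

theorem SYL_f (L : Subgroup G) (y : G) (l : G) (hl : l ∈ L) : Cz L (l * y * l⁻¹) = (Cz L y).map (MulAut.conj l).toMonoidHom := by
  ext x
  rw [Subgroup.mem_map_equiv]
  have h1 : (MulAut.conj l).symm x = l⁻¹ * x * l := rfl
  rw [h1]
  unfold Cz
  rw [Subgroup.mem_inf, Subgroup.mem_inf, Subgroup.mem_centralizer_iff, Subgroup.mem_centralizer_iff]
  constructor
  · rintro ⟨h2, h3⟩
    refine ⟨L.mul_mem (L.mul_mem (L.inv_mem hl) h2) hl, ?_⟩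
    rintro z rfl
    have h4 := h3 _ rfl
    calc z * (l⁻¹ * x * l) = l⁻¹ * (l * z * l⁻¹ * x) * l := by group
      _ = l⁻¹ * (x * (l * z * l⁻¹)) * l := by rw [h4]
      _ = l⁻¹ * x * l * z := by group
  · rintro ⟨h2, h3⟩
    refine ⟨?_, ?_⟩
    · have h4 := L.mul_mem (L.mul_mem hl h2) (L.inv_mem hl)
      have h5 : l * (l⁻¹ * x * l) * l⁻¹ = x := by group
      rwa [h5] at h4
    · rintro z rfl
      have h4 := h3 _ rfl
      calc l * y * l⁻¹ * x = l * (y * (l⁻¹ * x * l)) * l⁻¹ := by group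
        _ = l * (l⁻¹ * x * l * y) * l⁻¹ := by rw [h4]
        _ = x * (l * y * l⁻¹) := by group

theorem SYL_g (y : G) : cz (Subgroup.zpowers y) = Subgroup.centralizer {y} := by
  ext x
  rw [Subgroup.mem_centralizer_iff, Subgroup.mem_centralizer_iff]
  constructor
  · rintro h z rfl
    exact h _ (Subgroup.mem_zpowers z)
  · rintro h z ⟨n, rfl⟩
    have h1 : Commute y x := h y rfl
    exact h1.zpow_left n

theorem SYL_h (y : G) (h : PEl p y) : IsPGroup p (Subgroup.zpowers y) := by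
  obtain ⟨k, hk⟩ := h
  rintro ⟨z, n, rfl⟩
  refine ⟨k, ?_⟩
  apply Subtype.ext
  change (y ^ n) ^ p ^ k = 1
  rw [← zpow_natCast, ← zpow_mul, mul_comm, zpow_mul, zpow_natCast, hk, one_zpow]

theorem SYL_i (y g : G) : (PReg p y → PReg p (g * y * g⁻¹)) ∧ (PEl p y → PEl p (g * y * g⁻¹)) := by
  constructor
  · intro h
    have h1 : orderOf (g * y * g⁻¹) = orderOf y := by
      have h2 := orderOf_injective (MulAut.conj g).toMonoidHom (MulAut.conj g).injective y
      exact h2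
    unfold PReg
    rw [h1]
    exact h
  · rintro ⟨k, hk⟩
    refine ⟨k, ?_⟩
    rw [conj_pow, hk]
    group

end

theorem SYL : SYL_stmt := by
  intro p hp G _ _
  have he : ∀ (K : Subgroup G) (g : G), pp p (K.map (MulAut.conj g).toMonoidHom) = pp p K := by
    intro K g
    unfold pp
    rw [SYL_card]
  refine ⟨SYL_a, SYL_b, SYL_c, ?_, fun K g => ⟨he K g, SYL_card K g⟩, ?_, SYL_g, SYL_h, SYL_i⟩
  · intro K K' h
    exact Nat.pow_le_pow_right hp.out.pos (SYL_dvd Nat.card_pos.ne' (Subgroup.card_dvd_of_le h))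
  · intro L y l hl
    refine ⟨SYL_f L y l hl, ?_⟩
    rw [SYL_f L y l hl]
    exact he _ _

end Pool.Agent.FI
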