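import Pool.Agent.helper58.FI.SpecC

set_option autoImplicit false

namespace Pool.Agent.FI

open Pool.Agent.helper58.DC Pool.Agent.DI Pool.Agent.GR Pool.Agent.OB Pool.Agent.DR

section

variable {G : Type} [Group G]

theorem FEQ_SS (g h : G) (P : Subgroup G) : cjS g (cjS h P) = cjS (g * h) P := by
  ext x
  rw [mem_cjS, mem_cjS, mem_cjS]
  have e : h⁻¹ * (g⁻¹ * x * g) * h = (g * h)⁻¹ * x * (g * h) := by group
  rw [e]

theorem FEQ_FF (g h : G) (ψ : G → ℂ) : cjF g (cjF h ψ) = cjF (g * h) ψ := by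
  funext x
  rw [cjF_apply, cjF_apply, cjF_apply]
  congr 1
  group

theorem FEQ_S1 (P : Subgroup G) : cjS (1 : G) P = P := by
  ext x
  rw [mem_cjS]
  simp

theorem FEQ_F1 (ψ : G → ℂ) : cjF (1 : G) ψ = ψ := by
  funext x
  rw [cjF_apply]
  simp

theorem FEQ_Sinv (g : G) (P : Subgroup G) : cjS g⁻¹ (cjS g P) = P := by
  rw [FEQ_SS, inv_mul_cancel, FEQ_S1]

theorem FEQ_Finv (g : G) (ψ : G → ℂ) : cjF g⁻¹ (cjF g ψ) = ψ := by
  rw [FEQ_FF, inv_mul_cancel, FEQ_F1]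

theorem FEQ_inj (g : G) : Function.Injective (MulAut.conj g).toMonoidHom := (MulAut.conj g).injective

theorem FEQ_cz (g : G) (P : Subgroup G) : cz (cjS g P) = cjS g (cz P) := by
  ext x
  rw [mem_cjS, Subgroup.mem_centralizer_iff, Subgroup.mem_centralizer_iff]
  constructor
  · intro h p hp
    have h1 : g * p * g⁻¹ ∈ (cjS g P : Subgroup G) := by
      rw [mem_cjS]
      have e : g⁻¹ * (g * p * g⁻¹) * g = p := by group
      rw [e]
      exact hp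
    have h2 := h _ h1
    calc p * (g⁻¹ * x * g) = g⁻¹ * ((g * p * g⁻¹) * x) * g := by group
      _ = g⁻¹ * (x * (g * p * g⁻¹)) * g := by rw [h2]
      _ = g⁻¹ * x * g * p := by group
  · intro h y hy
    have h1 : g⁻¹ * y * g ∈ P := mem_cjS.1 hy
    have h2 := h _ h1
    calc y * x = g * ((g⁻¹ * y * g) * (g⁻¹ * x * g)) * g⁻¹ := by group
      _ = g * ((g⁻¹ * x * g) * (g⁻¹ * y * g)) * g⁻¹ := by rw [h2]
      _ = x * y := by group

theorem FEQ_nz (g : G) (P : Subgroup G) : nz (cjS g P) = cjS g (nz P) := by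
  ext x
  rw [mem_cjS, Subgroup.mem_normalizer_iff, Subgroup.mem_normalizer_iff]
  constructor
  · intro h p
    have h2 := h (g * p * g⁻¹)
    rw [mem_cjS, mem_cjS] at h2
    have e1 : g⁻¹ * (g * p * g⁻¹) * g = p := by group
    have e2 : g⁻¹ * (x * (g * p * g⁻¹) * x⁻¹) * g = g⁻¹ * x * g * p * (g⁻¹ * x * g)⁻¹ := by group
    rw [e1, e2] at h2
    exact h2
  · intro h y
    have h2 := h (g⁻¹ * y * g)
    rw [mem_cjS, mem_cjS]
    have e2 : g⁻¹ * x * g * (g⁻¹ * y * g) * (g⁻¹ * x * g)⁻¹ = g⁻¹ * (x * y * x⁻¹) * g := by group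
    rw [e2] at h2
    exact h2

theorem FEQ_fix (g : G) (P : Subgroup G) : cjS g P = P ↔ g ∈ nz P := by
  rw [Subgroup.mem_normalizer_iff]
  constructor
  · intro h p
    have h2 : g * p * g⁻¹ ∈ (cjS g P : Subgroup G) ↔ g * p * g⁻¹ ∈ P := by rw [h]
    rw [mem_cjS] at h2
    have e1 : g⁻¹ * (g * p * g⁻¹) * g = p := by group
    rw [e1] at h2
    exact h2
  · intro h
    ext x
    rw [mem_cjS]
    have h2 := h (g⁻¹ * x * g)
    have e1 : g * (g⁻¹ * x * g) * g⁻¹ = x := by group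
    rw [e1] at h2
    exact h2

theorem FEQ_Cz (g : G) (L : Subgroup G) (y : G) : cjS g (Cz L y) = Cz (cjS g L) (g * y * g⁻¹) := by
  ext x
  rw [mem_cjS]
  unfold Cz
  rw [Subgroup.mem_inf, Subgroup.mem_inf, mem_cjS, Subgroup.mem_centralizer_singleton_iff, Subgroup.mem_centralizer_singleton_iff]
  have key : g⁻¹ * x * g * y = y * (g⁻¹ * x * g) ↔ x * (g * y * g⁻¹) = g * y * g⁻¹ * x := by
    constructor
    · intro h
      calc x * (g * y * g⁻¹) = g * (g⁻¹ * x * g * y) * g⁻¹ := by group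
        _ = g * (y * (g⁻¹ * x * g)) * g⁻¹ := by rw [h]
        _ = g * y * g⁻¹ * x := by group
    · intro h
      calc g⁻¹ * x * g * y = g⁻¹ * (x * (g * y * g⁻¹)) * g := by group
        _ = g⁻¹ * (g * y * g⁻¹ * x) * g := by rw [h]
        _ = y * (g⁻¹ * x * g) := by group
  rw [key]

theorem FEQ_SB1 {M : Ideal (integralClosure ℤ ℂ)} (g : G) {L : Subgroup G} {η ψ : G → ℂ} (h : SB M L η ψ) :
    SB M (cjS g L) (cjF g η) (cjF g ψ) := by
  intro z hz hi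
  rw [cc_funMap, cc_funMap]
  refine h _ ⟨fun l hl x => ?_, fun x hx => ?_⟩ fun x => hi _
  · have h1 : g * l * g⁻¹ ∈ (cjS g L : Subgroup G) := by
      rw [mem_cjS]
      have e : g⁻¹ * (g * l * g⁻¹) * g = l := by group
      rw [e]
      exact hl
    have h2 := hz.1 _ h1 (g * x * g⁻¹)
    have e : g * l * g⁻¹ * (g * x * g⁻¹) * (g * l * g⁻¹)⁻¹ = g * (l * x * l⁻¹) * g⁻¹ := by group
    rw [e] at h2
    exact h2
  · refine hz.2 _ fun h1 => hx ?_
    rw [mem_cjS] at h1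
    have e : g⁻¹ * (g * x * g⁻¹) * g = x := by group
    rw [e] at h1
    exact h1

theorem FEQ_SB {M : Ideal (integralClosure ℤ ℂ)} (g : G) (L : Subgroup G) (η ψ : G → ℂ) :
    SB M L η ψ ↔ SB M (cjS g L) (cjF g η) (cjF g ψ) := by
  constructor
  · exact FEQ_SB1 g
  · intro h
    have h1 := FEQ_SB1 g⁻¹ h
    rw [FEQ_Sinv, FEQ_Finv, FEQ_Finv] at h1
    exact h1

theorem FEQ_IrrOn (hIF : IF_stmt) [Finite G] (g : G) (L : Subgroup G) (ψ : G → ℂ) :
    ψ ∈ IrrOn L ↔ cjF g ψ ∈ IrrOn (cjS g L) := by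
  constructor
  · intro h
    exact ((hIF G L).2 ψ h).2.2 (MulAut.conj g)
  · intro h
    have h1 : cjF g⁻¹ (cjF g ψ) ∈ IrrOn (cjS g⁻¹ (cjS g L)) := ((hIF G _).2 _ h).2.2 (MulAut.conj g⁻¹)
    rw [FEQ_Finv, FEQ_Sinv] at h1
    exact h1

theorem FEQ_stF (g : G) (L : Subgroup G) (ψ : G → ℂ) : stF (cjS g L) (cjF g ψ) = cjS g (stF L ψ) := by
  ext x
  rw [mem_cjS]
  change (x ∈ cjS g L ∧ cjF x (cjF g ψ) = cjF g ψ) ↔ (g⁻¹ * x * g ∈ L ∧ cjF (g⁻¹ * x * g) ψ = ψ)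
  rw [mem_cjS]
  refine and_congr Iff.rfl ⟨fun h => ?_, fun h => ?_⟩
  · have h1 := congrArg (cjF g⁻¹) h
    rw [FEQ_Finv, FEQ_FF, FEQ_FF] at h1
    first
      | exact h1
      | (rw [← mul_assoc] at h1; exact h1)
  · have h1 := congrArg (cjF g) h
    rw [FEQ_FF] at h1
    have e : g * (g⁻¹ * x * g) = x * g := by group
    rw [e, ← FEQ_FF] at h1
    exact h1

end

theorem FEQ (hIF : IF_stmt) (hIM : IM_stmt) (hTI : TI_stmt) : FEQ_stmt := by
  intro G _ _ M g h P Q L η ψ χ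
  refine ⟨⟨FEQ_SS g h P, FEQ_FF g h ψ, FEQ_S1 P, FEQ_F1 ψ⟩, ⟨FEQ_cz g P, FEQ_nz g P, ?_, FEQ_fix g P, ?_, ?_⟩, ?_, FEQ_IrrOn hIF g L ψ,
    FEQ_SB g L η ψ, ?_, ?_, FEQ_stF g L ψ, ?_⟩
  · exact Subgroup.map_le_map_iff_of_injective (FEQ_inj g)
  · exact Subgroup.map_eq_bot_iff_of_injective P (FEQ_inj g)
  · exact Subgroup.card_map_of_injective (FEQ_inj g)
  · intro y
    exact FEQ_Cz g L y
  · intro hχ
    have h1 : cjF g χ = χ := by
      funext x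
      rw [cjF_apply]
      have h2 := ((hIF G ⊤).2 χ ((hTI G χ).2 hχ)).2.1 g⁻¹ (Subgroup.mem_top _) x
      rw [inv_inv] at h2
      exact h2
    refine ⟨h1, ?_⟩
    have h3 := (hIM G M ψ χ χ).2.2.2 (MulAut.conj g)
    have h4 : funMap (MulAut.conj g) χ = χ := h1
    rw [h4] at h3
    exact h3
  · unfold Bl
    refine and_congr (FEQ_IrrOn hIF g L ψ) (FEQ_SB g L ψ η)
  · exact Subgroup.relIndex_map_map_of_injective P Q (FEQ_inj g)

end Pool.Agent.FI
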