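import Pool.Agent.helper36.HK.SpecN

/-!
# Row fi:GBR (MP_ad8ced_nt): the Riemann sum
-/

set_option autoImplicit false

open Finset

noncomputable section

namespace Pool.Agent.FI

/-- the derivative in the variable `u = tanh (y / 2)` -/
private def GBR_g (w x A u : ℝ) : ℝ :=
  if u ≤ A / (2 * w * x) then 48 * x ^ 2 else if u ≤ A / (w * x) then 2 * A ^ 2 / u ^ 2 - 16 * x ^ 2 else 0

/-- the antiderivative in the variable `u = tanh (y / 2)` -/
private def GBR_G (w x A u : ℝ) : ℝ :=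
  if u ≤ A / (2 * w * x) then 48 * x ^ 2 * u
  else if u ≤ A / (w * x) then 8 * w * A * x - 2 * A ^ 2 / u - 16 * x ^ 2 * u else 4 * w * A * x

private theorem GBR_u {w x A : ℝ} (hw : 0 < w) (hx : 0 < x) (hA : 0 < A) :
    0 < A / (2 * w * x) ∧ A / (2 * w * x) < A / (w * x) := by
  refine ⟨by positivity, ?_⟩
  apply div_lt_div_of_pos_left hA (by positivity)
  nlinarith [mul_pos hw hx]

private theorem GBR_2 {w x A : ℝ} (hw : 0 < w) (hw2 : w ^ 2 = 8) (hx : 0 < x) (hA : 0 < A) {u : ℝ}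
    (h1 : A / (2 * w * x) ≤ u) (h2 : u ≤ A / (w * x)) :
    GBR_g w x A u = 2 * A ^ 2 / u ^ 2 - 16 * x ^ 2 ∧
      GBR_G w x A u = 8 * w * A * x - 2 * A ^ 2 / u - 16 * x ^ 2 * u := by
  rcases h1.eq_or_lt with h | h
  · rw [GBR_g, GBR_G, if_pos h.ge, if_pos h.ge, ← h]
    have e1 : 2 * A ^ 2 / (A / (2 * w * x)) ^ 2 = 8 * w ^ 2 * x ^ 2 := by
      field_simp
      ring
    have e2 : 2 * A ^ 2 / (A / (2 * w * x)) = 4 * w * A * x := by
      field_simp
      ring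
    have e3 : 64 * x ^ 2 * (A / (2 * w * x)) = 4 * w * A * x := by
      field_simp
      nlinarith
    rw [e1, e2, hw2]
    constructor
    · ring
    · linarith
  · rw [GBR_g, GBR_G, if_neg h.not_ge, if_neg h.not_ge, if_pos h2, if_pos h2]
    exact ⟨rfl, rfl⟩

private theorem GBR_3 {w x A : ℝ} (hw : 0 < w) (hw2 : w ^ 2 = 8) (hx : 0 < x) (hA : 0 < A) {u : ℝ}
    (h2 : A / (w * x) ≤ u) : GBR_g w x A u = 0 ∧ GBR_G w x A u = 4 * w * A * x := by
  obtain ⟨h0, h1⟩ := GBR_u hw hx hA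
  rcases h2.eq_or_lt with h | h
  · obtain ⟨e1, e2⟩ := GBR_2 hw hw2 hx hA (u := u) (h1.le.trans h2) h.ge
    rw [e1, e2, ← h]
    have e3 : 2 * A ^ 2 / (A / (w * x)) ^ 2 = 2 * w ^ 2 * x ^ 2 := by
      field_simp
    have e4 : 2 * A ^ 2 / (A / (w * x)) = 2 * w * A * x := by
      field_simp
    have e5 : 16 * x ^ 2 * (A / (w * x)) = 2 * w * A * x := by
      field_simp
      nlinarith
    rw [e3, e4, e5, hw2]
    constructor <;> ring
  · have h3 : ¬ u ≤ A / (2 * w * x) := not_le.2 (h1.trans h)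
    rw [GBR_g, GBR_G, if_neg h3, if_neg h3, if_neg h.not_ge, if_neg h.not_ge]
    exact ⟨rfl, rfl⟩

/-- comparison of the increments -/
private def GBR_P (w x A s t : ℝ) : Prop :=
  GBR_g w x A t ≤ GBR_g w x A s ∧ GBR_g w x A t * (t - s) ≤ GBR_G w x A t - GBR_G w x A s ∧
    GBR_G w x A t - GBR_G w x A s ≤ GBR_g w x A s * (t - s)

private theorem GBR_glue {w x A s c t : ℝ} (hsc : s ≤ c) (hct : c ≤ t) (h1 : GBR_P w x A s c)
    (h2 : GBR_P w x A c t) : GBR_P w x A s t := by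
  obtain ⟨a1, a2, a3⟩ := h1
  obtain ⟨b1, b2, b3⟩ := h2
  have e1 := mul_le_mul_of_nonneg_right b1 (sub_nonneg.2 hsc)
  have e2 := mul_le_mul_of_nonneg_right a1 (sub_nonneg.2 hct)
  refine ⟨b1.trans a1, ?_, ?_⟩ <;> nlinarith

private theorem GBR_P1 {w x A s t : ℝ} (hst : s ≤ t) (ht : t ≤ A / (2 * w * x)) :
    GBR_P w x A s t := by
  have hs := hst.trans ht
  rw [GBR_P, GBR_g, GBR_g, GBR_G, GBR_G, if_pos hs, if_pos ht, if_pos hs, if_pos ht]
  refine ⟨le_rfl, ?_, ?_⟩ <;> linarith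

private theorem GBR_P2 {w x A s t : ℝ} (hw : 0 < w) (hw2 : w ^ 2 = 8) (hx : 0 < x) (hA : 0 < A)
    (hs : A / (2 * w * x) ≤ s) (hst : s ≤ t) (ht : t ≤ A / (w * x)) : GBR_P w x A s t := by
  obtain ⟨h0, h1⟩ := GBR_u hw hx hA
  obtain ⟨e1, e2⟩ := GBR_2 hw hw2 hx hA hs (hst.trans ht)
  obtain ⟨e3, e4⟩ := GBR_2 hw hw2 hx hA (hs.trans hst) ht
  have hs0 : 0 < s := h0.trans_le hs
  have ht0 : 0 < t := hs0.trans_le hst
  rw [GBR_P, e1, e2, e3, e4]
  have e5 : 8 * w * A * x - 2 * A ^ 2 / t - 16 * x ^ 2 * t - (8 * w * A * x - 2 * A ^ 2 / s - 16 * x ^ 2 * s) =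
      (2 * A ^ 2 / (s * t) - 16 * x ^ 2) * (t - s) := by
    field_simp
    ring
  have a1 : 2 * A ^ 2 / t ^ 2 ≤ 2 * A ^ 2 / (s * t) :=
    div_le_div_of_nonneg_left (by positivity) (by positivity) (by nlinarith)
  have a2 : 2 * A ^ 2 / (s * t) ≤ 2 * A ^ 2 / s ^ 2 :=
    div_le_div_of_nonneg_left (by positivity) (by positivity) (by nlinarith)
  rw [e5]
  refine ⟨by linarith, ?_, ?_⟩
  · exact mul_le_mul_of_nonneg_right (by linarith) (by linarith)
  · exact mul_le_mul_of_nonneg_right (by linarith) (by linarith)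

private theorem GBR_P3 {w x A s t : ℝ} (hw : 0 < w) (hw2 : w ^ 2 = 8) (hx : 0 < x) (hA : 0 < A)
    (hs : A / (w * x) ≤ s) (hst : s ≤ t) : GBR_P w x A s t := by
  obtain ⟨e1, e2⟩ := GBR_3 hw hw2 hx hA hs
  obtain ⟨e3, e4⟩ := GBR_3 hw hw2 hx hA (hs.trans hst)
  rw [GBR_P, e1, e2, e3, e4]
  refine ⟨le_rfl, ?_, ?_⟩ <;> linarith

private theorem GBR_all {w x A s t : ℝ} (hw : 0 < w) (hw2 : w ^ 2 = 8) (hx : 0 < x) (hA : 0 < A)
    (hst : s ≤ t) : GBR_P w x A s t := by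
  obtain ⟨h0, h1⟩ := GBR_u hw hx hA
  have key : ∀ s t, A / (2 * w * x) ≤ s → s ≤ t → GBR_P w x A s t := by
    intro s t hs hst
    rcases le_total t (A / (w * x)) with h | h
    · exact GBR_P2 hw hw2 hx hA hs hst h
    · rcases le_total s (A / (w * x)) with h' | h'
      · exact GBR_glue h' h (GBR_P2 hw hw2 hx hA hs h' le_rfl) (GBR_P3 hw hw2 hx hA le_rfl h)
      · exact GBR_P3 hw hw2 hx hA h' hst
  rcases le_total t (A / (2 * w * x)) with h | h
  · exact GBR_P1 hst h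
  · rcases le_total s (A / (2 * w * x)) with h' | h'
    · exact GBR_glue h' h (GBR_P1 h' le_rfl) (key _ _ le_rfl h)
    · exact key _ _ h' hst

private theorem GBR_cosh (t : ℝ) : 1 / Real.cosh t ^ 2 = 1 - Real.tanh t ^ 2 := by
  have h0 := Real.cosh_pos t
  have h1 := Real.cosh_sq t
  rw [Real.tanh_eq_sinh_div_cosh]
  field_simp
  linarith

private theorem GBR_deriv (t : ℝ) : HasDerivAt Real.tanh (1 / Real.cosh t ^ 2) t := by
  have h0 := (Real.cosh_pos t).ne'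
  have h1 := (Real.hasDerivAt_sinh t).div (Real.hasDerivAt_cosh t) h0
  have h2 : (Real.cosh t * Real.cosh t - Real.sinh t * Real.sinh t) / Real.cosh t ^ 2 =
      1 / Real.cosh t ^ 2 := by
    have := Real.cosh_sq t
    congr 1
    nlinarith
  rw [h2] at h1
  have h3 : (Real.sinh / Real.cosh) = Real.tanh := by
    funext y
    rw [Pi.div_apply, Real.tanh_eq_sinh_div_cosh]
  rw [h3] at h1
  exact h1

/-- the increments of `tanh` -/
private theorem GBR_tanh {s t : ℝ} (hs : 0 ≤ s) (hst : s < t) :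
    (1 / Real.cosh t ^ 2) * (t - s) ≤ Real.tanh t - Real.tanh s ∧
      Real.tanh t - Real.tanh s ≤ (1 / Real.cosh s ^ 2) * (t - s) := by
  obtain ⟨c, hc, h⟩ := exists_hasDerivAt_eq_slope Real.tanh (fun y => 1 / Real.cosh y ^ 2) hst
    (fun y _ => (GBR_deriv y).continuousAt.continuousWithinAt) (fun y _ => GBR_deriv y)
  have hts : 0 < t - s := sub_pos.2 hst
  have h1 : Real.tanh t - Real.tanh s = (1 / Real.cosh c ^ 2) * (t - s) := by
    rw [h]
    field_simp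
  have hcc : Real.cosh c ≤ Real.cosh t := by
    rw [Real.cosh_le_cosh, abs_of_nonneg (by linarith [hc.1]), abs_of_nonneg (by linarith)]
    exact hc.2.le
  have hcs : Real.cosh s ≤ Real.cosh c := by
    rw [Real.cosh_le_cosh, abs_of_nonneg hs, abs_of_nonneg (by linarith [hc.1])]
    exact hc.1.le
  have p1 := Real.cosh_pos s
  have p2 := Real.cosh_pos c
  have p3 := Real.cosh_pos t
  rw [h1]
  constructor
  · refine mul_le_mul_of_nonneg_right ?_ hts.le
    exact one_div_le_one_div_of_le (by positivity) (pow_le_pow_left₀ p2.le hcc 2)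
  · refine mul_le_mul_of_nonneg_right ?_ hts.le
    exact one_div_le_one_div_of_le (by positivity) (pow_le_pow_left₀ p1.le hcs 2)

/-- the value of the function at a point -/
private theorem GBR_F {w x A τ : ℝ} (hw : 0 < w) (hw2 : w ^ 2 = 8) (hx : 0 < x) (hA : 0 < A)
    (hτ : 0 < τ) :
    max 0 (min (32 * x ^ 2 / Real.cosh τ ^ 2) (A ^ 2 / Real.sinh τ ^ 2) - 8 * x ^ 2 / Real.cosh τ ^ 2) =
      GBR_g w x A (Real.tanh τ) / 2 * (1 / Real.cosh τ ^ 2) := by
  have hC := Real.cosh_pos τ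
  have hS : 0 < Real.sinh τ := Real.sinh_pos_iff.2 hτ
  rw [Real.tanh_eq_sinh_div_cosh]
  set C := Real.cosh τ with hCd
  set S := Real.sinh τ with hSd
  have hwx : 0 < w * x := by positivity
  rcases le_total (S / C) (A / (2 * w * x)) with h | h
  · have h1 : S * (2 * w * x) ≤ A * C := (div_le_div_iff₀ hC (by positivity)).1 h
    have h2 : 32 * x ^ 2 * S ^ 2 ≤ A ^ 2 * C ^ 2 := by
      have h3 : (S * (2 * w * x)) ^ 2 ≤ (A * C) ^ 2 := pow_le_pow_left₀ (by positivity) h1 2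
      have h4 : (S * (2 * w * x)) ^ 2 = 4 * w ^ 2 * x ^ 2 * S ^ 2 := by ring
      rw [h4, hw2] at h3
      nlinarith
    have h3 : 32 * x ^ 2 / C ^ 2 ≤ A ^ 2 / S ^ 2 := by
      rw [div_le_div_iff₀ (by positivity) (by positivity)]
      exact h2
    rw [min_eq_left h3, GBR_g, if_pos h]
    have h4 : 32 * x ^ 2 / C ^ 2 - 8 * x ^ 2 / C ^ 2 = 48 * x ^ 2 / 2 * (1 / C ^ 2) := by ring
    rw [h4]
    exact max_eq_right (by positivity)
  · have h1 : A * C ≤ S * (2 * w * x) := (div_le_div_iff₀ (by positivity) hC).1 h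
    have h2 : A ^ 2 * C ^ 2 ≤ 32 * x ^ 2 * S ^ 2 := by
      have h3 : (A * C) ^ 2 ≤ (S * (2 * w * x)) ^ 2 := pow_le_pow_left₀ (by positivity) h1 2
      have h4 : (S * (2 * w * x)) ^ 2 = 4 * w ^ 2 * x ^ 2 * S ^ 2 := by ring
      rw [h4, hw2] at h3
      nlinarith
    have h3 : A ^ 2 / S ^ 2 ≤ 32 * x ^ 2 / C ^ 2 := by
      rw [div_le_div_iff₀ (by positivity) (by positivity)]
      exact h2
    rw [min_eq_right h3]
    have e0 : A ^ 2 / S ^ 2 - 8 * x ^ 2 / C ^ 2 = (2 * A ^ 2 / (S / C) ^ 2 - 16 * x ^ 2) / 2 * (1 / C ^ 2) := by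
      field_simp
      ring
    rcases le_total (S / C) (A / (w * x)) with h' | h'
    · rw [(GBR_2 hw hw2 hx hA h h').1, e0]
      apply max_eq_right
      rw [← e0, sub_nonneg, div_le_div_iff₀ (by positivity) (by positivity)]
      have h5 : S * (w * x) ≤ A * C := (div_le_div_iff₀ hC (by positivity)).1 h'
      have h6 : (S * (w * x)) ^ 2 ≤ (A * C) ^ 2 := pow_le_pow_left₀ (by positivity) h5 2
      have h7 : (S * (w * x)) ^ 2 = w ^ 2 * x ^ 2 * S ^ 2 := by ring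
      rw [h7, hw2] at h6
      nlinarith
    · rw [(GBR_3 hw hw2 hx hA h').1, zero_div, zero_mul]
      apply max_eq_left
      rw [sub_nonpos, div_le_div_iff₀ (by positivity) (by positivity)]
      have h5 : A * C ≤ S * (w * x) := (div_le_div_iff₀ (by positivity) hC).1 h'
      have h6 : (A * C) ^ 2 ≤ (S * (w * x)) ^ 2 := pow_le_pow_left₀ (by positivity) h5 2
      have h7 : (S * (w * x)) ^ 2 = w ^ 2 * x ^ 2 * S ^ 2 := by ring
      rw [h7, hw2] at h6
      nlinarith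

/-- the floors -/
private theorem GBR_floor {a b : ℝ} (ha : 0 ≤ a) (hb : 0 ≤ b) :
    |((max ⌊a⌋₊ ⌊b⌋₊ : ℕ) : ℝ) - (⌊a⌋₊ : ℕ) - max 0 (b - a)| ≤ 1 := by
  have a1 := Nat.floor_le ha
  have a2 := Nat.lt_floor_add_one a
  have b1 := Nat.floor_le hb
  have b2 := Nat.lt_floor_add_one b
  rw [Nat.cast_max, abs_le]
  rcases le_total (b - a) 0 with h | h
  · rw [max_eq_left h]
    have h1 : ⌊b⌋₊ ≤ ⌊a⌋₊ := Nat.floor_le_floor (by linarith)
    have h2 : ((⌊b⌋₊ : ℕ) : ℝ) ≤ (⌊a⌋₊ : ℕ) := by exact_mod_cast h1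
    rw [max_eq_left h2]
    constructor <;> linarith
  · rw [max_eq_right h]
    have h1 : ⌊a⌋₊ ≤ ⌊b⌋₊ := Nat.floor_le_floor (by linarith)
    have h2 : ((⌊a⌋₊ : ℕ) : ℝ) ≤ (⌊b⌋₊ : ℕ) := by exact_mod_cast h1
    rw [max_eq_right h2]
    constructor <;> linarith

theorem GBR : GBR_stmt := by
  refine ⟨24, by norm_num, fun x A m hA hAx hm => ?_⟩
  have hw : (0 : ℝ) < √8 := Real.sqrt_pos.2 (by norm_num)
  have hw2 : (√8 : ℝ) ^ 2 = 8 := Real.sq_sqrt (by norm_num)
  have hA0 : (0 : ℝ) < A := by exact_mod_cast hA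
  have hx0 : (0 : ℝ) < x := by
    have : 0 < x := by omega
    exact_mod_cast this
  have hAxr : (A : ℝ) ≤ x := by exact_mod_cast hAx
  have hm0 : (0 : ℝ) < m := by
    have : 0 < m := by omega
    exact_mod_cast this
  -- the nodes
  set H : ℕ → ℝ := fun k => GBR_G √8 x A (Real.tanh (k / (2 * m))) with hH
  set f : ℕ → ℝ := fun k => (1 / (m : ℝ)) *
    (GBR_g √8 x A (Real.tanh (k / (2 * m))) / 2 * (1 / Real.cosh (k / (2 * m)) ^ 2)) with hf
  have hgnn : ∀ u : ℝ, 0 ≤ GBR_g √8 x A u := by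
    intro u
    obtain ⟨h1, -, -⟩ := GBR_all (w := √8) (x := x) (A := A) (s := u)
      (t := max u (A / (√8 * x))) hw hw2 hx0 hA0 (le_max_left _ _)
    rw [(GBR_3 hw hw2 hx0 hA0 (le_max_right _ _)).1] at h1
    exact h1
  have hstep : ∀ k : ℕ, ((k + 1 : ℕ) : ℝ) / (2 * m) - k / (2 * m) = 1 / (2 * m) := by
    intro k
    push_cast
    ring
  have hlt : ∀ k : ℕ, (k : ℝ) / (2 * m) < ((k + 1 : ℕ) : ℝ) / (2 * m) := by
    intro k
    have := hstep k
    have h2 : 0 < 1 / (2 * (m : ℝ)) := by positivity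
    linarith
  have hnn : ∀ k : ℕ, 0 ≤ (k : ℝ) / (2 * m) := fun k => by positivity
  have hup : ∀ k : ℕ, f (k + 1) ≤ H (k + 1) - H k := by
    intro k
    obtain ⟨t1, t2⟩ := GBR_tanh (hnn k) (hlt k)
    have hP := GBR_all (w := √8) (x := x) (A := A) hw hw2 hx0 hA0
      (show Real.tanh (k / (2 * m)) ≤ Real.tanh (((k + 1 : ℕ) : ℝ) / (2 * m)) by
        have h0 : 0 ≤ 1 / Real.cosh (((k + 1 : ℕ) : ℝ) / (2 * m)) ^ 2 *
          (((k + 1 : ℕ) : ℝ) / (2 * m) - k / (2 * m)) := by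
          rw [hstep]
          positivity
        linarith)
    refine le_trans ?_ hP.2.1
    rw [hstep] at t1
    have h3 := mul_le_mul_of_nonneg_left t1 (hgnn (Real.tanh (((k + 1 : ℕ) : ℝ) / (2 * m))))
    refine le_trans (le_of_eq ?_) h3
    rw [hf]
    field_simp
  have hlo : ∀ k : ℕ, H (k + 1) - H k ≤ f k := by
    intro k
    obtain ⟨t1, t2⟩ := GBR_tanh (hnn k) (hlt k)
    have hP := GBR_all (w := √8) (x := x) (A := A) hw hw2 hx0 hA0
      (show Real.tanh (k / (2 * m)) ≤ Real.tanh (((k + 1 : ℕ) : ℝ) / (2 * m)) by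
        have h0 : 0 ≤ 1 / Real.cosh (((k + 1 : ℕ) : ℝ) / (2 * m)) ^ 2 *
          (((k + 1 : ℕ) : ℝ) / (2 * m) - k / (2 * m)) := by
          rw [hstep]
          positivity
        linarith)
    refine le_trans hP.2.2 ?_
    rw [hstep] at t2
    have h3 := mul_le_mul_of_nonneg_left t2 (hgnn (Real.tanh ((k : ℝ) / (2 * m))))
    refine le_trans h3 (le_of_eq ?_)
    rw [hf]
    field_simp
  -- the sum of the `f k`
  have hH0 : H 0 = 0 := by
    simp only [hH, Nat.cast_zero, zero_div, Real.tanh_zero]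
    rw [GBR_G, if_pos (GBR_u hw hx0 hA0).1.le, mul_zero]
  have hHle : ∀ k, H k ≤ 4 * √8 * A * x := by
    intro k
    set u := Real.tanh ((k : ℝ) / (2 * m)) with hu
    obtain ⟨-, h1, -⟩ := GBR_all (w := √8) (x := x) (A := A) (s := u)
      (t := max u (A / (√8 * x))) hw hw2 hx0 hA0 (le_max_left _ _)
    obtain ⟨e1, e2⟩ := GBR_3 hw hw2 hx0 hA0 (le_max_right u (A / (√8 * x)))
    rw [e1, e2, zero_mul] at h1
    have : H k = GBR_G √8 x A u := rfl
    rw [this]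
    linarith
  have hHm : H m = 4 * √8 * A * x := by
    have h1 : (m : ℝ) / (2 * m) = 1 / 2 := by
      field_simp
    have h2 : A / (√8 * x) ≤ Real.tanh ((m : ℝ) / (2 * m)) := by
      rw [h1]
      have h3 : A / (√8 * x) ≤ 1 / √8 := by
        rw [div_le_div_iff₀ (by positivity) hw]
        nlinarith
      have h4 : 1 / √8 ≤ 4 / 10 := by
        rw [div_le_div_iff₀ hw (by norm_num)]
        have : (5 / 2 : ℝ) ≤ √8 := Real.le_sqrt_of_sq_le (by norm_num)
        linarith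
      have h5 : (4 / 10 : ℝ) ≤ Real.tanh (1 / 2) := by
        rw [Real.tanh_eq_sinh_div_cosh, div_le_div_iff₀ (by norm_num) (Real.cosh_pos _),
          Real.sinh_eq, Real.cosh_eq]
        have h6 : Real.exp (-(1 / 2)) * Real.exp (1 / 2) = 1 := by
          rw [← Real.exp_add]
          simp
        have h7 : Real.exp (1 / 2) * Real.exp (1 / 2) = Real.exp 1 := by
          rw [← Real.exp_add]
          norm_num
        have h8 := Real.exp_one_gt_d9
        have h9 := Real.exp_pos (-(1 / 2))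
        have h10 := Real.exp_pos (1 / 2)
        have h11 : Real.exp (1 / 2) * 6 ≥ 14 * Real.exp (-(1 / 2)) := by
          have h12 : Real.exp (1 / 2) * 6 = 6 * Real.exp 1 * Real.exp (-(1 / 2)) := by
            rw [← h7]
            have : 6 * (Real.exp (1 / 2) * Real.exp (1 / 2)) * Real.exp (-(1 / 2)) =
              6 * Real.exp (1 / 2) * (Real.exp (-(1 / 2)) * Real.exp (1 / 2)) := by ring
            rw [this, h6]
            ring
          rw [h12]
          have : (14 : ℝ) ≤ 6 * Real.exp 1 := by linarith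
          exact mul_le_mul_of_nonneg_right this h9.le
        linarith
      linarith
    exact (GBR_3 hw hw2 hx0 hA0 h2).2
  have hH1 : H 1 ≤ 24 * (x : ℝ) ^ 2 / m := by
    have h1 := hlo 0
    rw [zero_add, hH0, sub_zero] at h1
    refine h1.trans (le_of_eq ?_)
    simp only [hf, Nat.cast_zero, zero_div, Real.tanh_zero, Real.cosh_zero]
    rw [GBR_g, if_pos (GBR_u hw hx0 hA0).1.le]
    ring
  have hsum : ∑ k ∈ Ico 1 m, f k = ∑ i ∈ range (m - 1), f (i + 1) := by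
    rw [Finset.sum_Ico_eq_sum_range]
    exact Finset.sum_congr rfl fun i _ => by rw [add_comm]
  have hU : ∑ k ∈ Ico 1 m, f k ≤ 4 * √8 * A * x := by
    rw [hsum]
    calc ∑ i ∈ range (m - 1), f (i + 1) ≤ ∑ i ∈ range (m - 1), (H (i + 1) - H i) :=
          Finset.sum_le_sum fun i _ => hup i
      _ = H (m - 1) - H 0 := Finset.sum_range_sub H (m - 1)
      _ ≤ _ := by rw [hH0, sub_zero]; exact hHle _
  have hL : 4 * √8 * A * x - 24 * (x : ℝ) ^ 2 / m ≤ ∑ k ∈ Ico 1 m, f k := by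
    rw [hsum]
    calc 4 * √8 * A * x - 24 * (x : ℝ) ^ 2 / m ≤ H (m - 1 + 1) - H (0 + 1) := by
          have : m - 1 + 1 = m := by omega
          rw [this, hHm, zero_add]
          linarith
      _ = ∑ i ∈ range (m - 1), (H (i + 1 + 1) - H (i + 1)) :=
          (Finset.sum_range_sub (fun i => H (i + 1)) (m - 1)).symm
      _ ≤ ∑ i ∈ range (m - 1), f (i + 1) := Finset.sum_le_sum fun i _ => hlo (i + 1)
  -- the floors
  have hfl : |∑ k ∈ Ico 1 m, (1 / (m : ℝ)) * ((cu2 x A m k : ℝ) - cu1 x m k) - ∑ k ∈ Ico 1 m, f k| ≤ 1 := by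
    rw [← Finset.sum_sub_distrib]
    refine (Finset.abs_sum_le_sum_abs _ _).trans ?_
    have h1 : ∀ k ∈ Ico 1 m, |(1 / (m : ℝ)) * ((cu2 x A m k : ℝ) - cu1 x m k) - f k| ≤ 1 / (m : ℝ) := by
      intro k hk
      have hk1 := (mem_Ico.1 hk).1
      have hτ : (0 : ℝ) < (k : ℝ) / (2 * m) := by
        have : (0 : ℝ) < k := by exact_mod_cast hk1
        positivity
      have h2 := GBR_F (w := √8) hw hw2 hx0 hA0 hτ
      have h3 : f k = (1 / (m : ℝ)) * max 0 (min (32 * (x : ℝ) ^ 2 / Real.cosh (k / (2 * m)) ^ 2)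
          ((A : ℝ) ^ 2 / Real.sinh (k / (2 * m)) ^ 2) - 8 * (x : ℝ) ^ 2 / Real.cosh (k / (2 * m)) ^ 2) := by
        rw [h2]
      have hp := Real.cosh_pos ((k : ℝ) / (2 * m))
      have h4 := GBR_floor (a := 8 * (x : ℝ) ^ 2 / Real.cosh (k / (2 * m)) ^ 2)
        (b := min (32 * (x : ℝ) ^ 2 / Real.cosh (k / (2 * m)) ^ 2)
          ((A : ℝ) ^ 2 / Real.sinh (k / (2 * m)) ^ 2)) (by positivity)
        (le_min (by positivity) (by positivity))
      rw [h3, ← mul_sub, abs_mul, abs_of_pos (show (0 : ℝ) < 1 / m by positivity)]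
      have h5 : (1 / (m : ℝ)) * |(cu2 x A m k : ℝ) - cu1 x m k - max 0 (min (32 * (x : ℝ) ^ 2 /
          Real.cosh (k / (2 * m)) ^ 2) ((A : ℝ) ^ 2 / Real.sinh (k / (2 * m)) ^ 2) -
          8 * (x : ℝ) ^ 2 / Real.cosh (k / (2 * m)) ^ 2)| ≤ (1 / (m : ℝ)) * 1 :=
        mul_le_mul_of_nonneg_left h4 (by positivity)
      rw [mul_one] at h5
      exact h5
    refine (Finset.sum_le_sum h1).trans ?_
    rw [Finset.sum_const, Nat.card_Ico, nsmul_eq_mul]
    have h2 : ((m - 1 : ℕ) : ℝ) ≤ m := by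
      have : m - 1 ≤ m := Nat.sub_le _ _
      exact_mod_cast this
    calc ((m - 1 : ℕ) : ℝ) * (1 / m) ≤ m * (1 / m) := mul_le_mul_of_nonneg_right h2 (by positivity)
      _ = 1 := by field_simp
  have hx2 : 24 * (x : ℝ) ^ 2 / m = 24 * ((x : ℝ) ^ 2 / m) := by ring
  have hxm : 0 ≤ (x : ℝ) ^ 2 / m := by positivity
  have h48 : 4 * √8 * ((A : ℝ) * x) = 4 * √8 * A * x := by ring
  rw [abs_le] at hfl
  rw [h48, abs_le]
  rw [hx2] at hL
  constructor <;> linarith [hfl.1, hfl.2]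

end Pool.Agent.FI
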