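import Pool.Agent.helper40.FI.SpecLA

set_option autoImplicit false

namespace Pool.Agent.FI

open Finset

theorem LC1 (hLPC : LPC_stmt) (hLTO : LTO_stmt) : LC1_stmt := by
  intro p D _ _ _ X _ Z I g l₀ hG hF
  have hA : ∀ χ (l : D →* ℂˣ), ∃ a : ℤ, l ∈ ov Z l₀ → ∑ u, g χ u * (lv l u⁻¹ - lv l₀ u⁻¹) = (Nat.card D : ℂ) * (a : ℂ) := by
    intro χ l
    by_cases hl : l ∈ ov Z l₀
    · obtain ⟨a, ha⟩ := hG.gi χ l l₀ (mem_ov.1 hl)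
      exact ⟨a, fun _ => ha⟩
    · exact ⟨0, fun h => absurd h hl⟩
  choose A hA using hA
  have hLA : LAi Z l₀ g A := fun χ l hl => hA χ l hl
  have h1 := hLTO p D X Z I g l₀ A hG hF hLA
  have h2 : ∑ _χ ∈ lX Z l₀ g, (((Z.index : ℤ) - 1) * Nat.card I) ≤
      ∑ χ ∈ lX Z l₀ g, (((Z.index : ℤ) - 1 + Nat.card I) * ∑ l ∈ ov Z l₀, A χ l ^ 2 - (∑ l ∈ ov Z l₀, A χ l) ^ 2) :=
    Finset.sum_le_sum fun χ hχ => (hLPC p D X Z I g l₀ A hG hF hLA χ hχ).1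
  rw [h1, Finset.sum_const, nsmul_eq_mul] at h2
  have h3 : Z.index ≠ 0 := Subgroup.index_ne_zero_of_finite
  have h4 : Z.index ≠ 1 := fun h => hG.ne (Subgroup.index_eq_one.1 h)
  obtain ⟨k, hk⟩ : ∃ k : ℕ, Z.index = k + 1 := ⟨Z.index - 1, by omega⟩
  have hk0 : 0 < k := by omega
  rw [hk] at h2 ⊢
  rw [Nat.add_sub_cancel]
  push_cast at h2
  have h5 : (k : ℤ) * ((Nat.card I : ℤ) * ((lX Z l₀ g).card : ℤ)) ≤ (k : ℤ) * ((k : ℤ) + (Nat.card I : ℤ) ^ 2) := by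
    have e1 : (k : ℤ) + 1 - 1 = k := by ring
    rw [e1] at h2
    linarith [h2]
  have h6 : (Nat.card I : ℤ) * ((lX Z l₀ g).card : ℤ) ≤ (k : ℤ) + (Nat.card I : ℤ) ^ 2 :=
    le_of_mul_le_mul_left h5 (by exact_mod_cast hk0)
  exact_mod_cast h6

end Pool.Agent.FI
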