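import Pool.Agent.helper95.FI.SpecA

/-!
# Row fi:UCT (MP_ad8ced_nt)

The units of norm one in a box.
-/

set_option autoImplicit false

open Finset

namespace Pool.Agent.FI

/-- consecutive solutions of the Pell equation grow by a factor -/
private theorem UCT_grow {p q p' q' : ℤ} (hp : 0 < p) (hp' : 0 < p') (hq : 0 ≤ q) (hq' : 0 ≤ q')
    (h : p ^ 2 - 8 * q ^ 2 = 1) (h' : p' ^ 2 - 8 * q' ^ 2 = 1) (hlt : p < p') : 2 * p ≤ p' := by
  have e1 : q ^ 2 < q' ^ 2 := by nlinarith
  have e2 : (p' * q) ^ 2 < (p * q') ^ 2 := by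
    have : (p * q') ^ 2 - (p' * q) ^ 2 = q' ^ 2 - q ^ 2 := by
      linear_combination q' ^ 2 * h - q ^ 2 * h'
    linarith
  have e3 : p' * q < p * q' := lt_of_pow_lt_pow_left₀ 2 (by positivity) e2
  have e4 : (8 * (q * q')) ^ 2 < (p * p') ^ 2 := by
    have : (p * p') ^ 2 - (8 * (q * q')) ^ 2 = 1 + 8 * q ^ 2 + 8 * q' ^ 2 := by
      linear_combination p' ^ 2 * h + (1 + 8 * q ^ 2) * h'
    nlinarith [sq_nonneg q, sq_nonneg q']
  have e5 : 8 * (q * q') < p * p' := lt_of_pow_lt_pow_left₀ 2 (by positivity) e4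
  set P : ℤ := p * p' - 8 * (q * q') with hP
  set Q : ℤ := p * q' - p' * q with hQ
  have e6 : P ^ 2 - 8 * Q ^ 2 = 1 := by
    rw [hP, hQ]
    linear_combination (p' ^ 2 - 8 * q' ^ 2) * h + h'
  have hQ1 : 1 ≤ Q := by linarith
  have hP0 : 0 < P := by linarith
  have hP2 : 2 ≤ P := by
    by_contra hc
    have : P = 1 := by omega
    rw [this] at e6
    nlinarith
  have e7 : p' = P * p + 8 * (Q * q) := by
    rw [hP, hQ]
    linear_combination (-p') * h
  have e8 : 0 ≤ Q * q := mul_nonneg (by linarith) hq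
  nlinarith

private theorem UCT_abs {u v : ℤ × ℤ} (hu : N8 u = 1) (hv : N8 v = 1)
    (hl : Nat.log 2 u.1.natAbs = Nat.log 2 v.1.natAbs) : u.1.natAbs = v.1.natAbs := by
  unfold N8 at hu hv
  have hne : ∀ w : ℤ × ℤ, w.1 ^ 2 - 8 * w.2 ^ 2 = 1 → w.1 ≠ 0 := by
    intro w hw h0
    rw [h0] at hw
    nlinarith [sq_nonneg w.2]
  have key : ∀ w w' : ℤ × ℤ, w.1 ^ 2 - 8 * w.2 ^ 2 = 1 → w'.1 ^ 2 - 8 * w'.2 ^ 2 = 1 →
      Nat.log 2 w.1.natAbs = Nat.log 2 w'.1.natAbs → ¬ w.1.natAbs < w'.1.natAbs := by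
    intro w w' hw hw' hlog hlt
    have h1 : 0 < |w.1| := abs_pos.2 (hne w hw)
    have h2 : 0 < |w'.1| := abs_pos.2 (hne w' hw')
    have a1 := Int.abs_eq_natAbs w.1
    have a2 := Int.abs_eq_natAbs w'.1
    have h3 : |w.1| < |w'.1| := by
      rw [a1, a2]
      exact_mod_cast hlt
    have h4 := UCT_grow h1 h2 (abs_nonneg w.2) (abs_nonneg w'.2) (by rw [sq_abs, sq_abs]; exact hw)
      (by rw [sq_abs, sq_abs]; exact hw') h3
    have h5 : w.1.natAbs ≠ 0 := Int.natAbs_ne_zero.2 (hne w hw)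
    rw [a1, a2] at h4
    have h6 : 2 * w.1.natAbs ≤ w'.1.natAbs := by exact_mod_cast h4
    have h7 : Nat.log 2 (w.1.natAbs * 2) = Nat.log 2 w.1.natAbs + 1 := Nat.log_mul_base (by norm_num) h5
    have h8 : Nat.log 2 (w.1.natAbs * 2) ≤ Nat.log 2 w'.1.natAbs := Nat.log_mono_right (by omega)
    omega
  rcases lt_trichotomy u.1.natAbs v.1.natAbs with h | h | h
  · exact absurd h (key u v hu hv hl)
  · exact h
  · exact absurd h (key v u hv hu hl.symm)

theorem UCT : UCT_stmt := by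
  classical
  refine ⟨8, by norm_num, fun Y hY => ?_⟩
  have hcard : #{u ∈ Bx Y | N8 u = 1} ≤ #((range (Nat.log 2 Y + 1)) ×ˢ (univ : Finset (Bool × Bool))) := by
    refine Finset.card_le_card_of_injOn
      (fun u => (Nat.log 2 u.1.natAbs, (decide (0 < u.1), decide (0 ≤ u.2)))) ?_ ?_
    · intro u hu
      rw [Finset.mem_coe, Finset.mem_filter] at hu
      have h1 := hu.1
      unfold Bx at h1
      rw [Finset.mem_product, Finset.mem_Icc] at h1
      rw [Finset.mem_coe, Finset.mem_product, Finset.mem_range]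
      refine ⟨?_, Finset.mem_univ _⟩
      have h2 : u.1.natAbs ≤ Y := by omega
      have := Nat.log_mono_right (b := 2) h2
      change Nat.log 2 u.1.natAbs < Nat.log 2 Y + 1
      omega
    · intro u hu v hv huv
      rw [Finset.mem_coe, Finset.mem_filter] at hu hv
      have hu1 := hu.2
      have hv1 := hv.2
      simp only [Prod.mk.injEq] at huv
      obtain ⟨h1, h2, h3⟩ := huv
      have h4 := UCT_abs hu1 hv1 h1
      have h5 : u.1 = v.1 := by
        rcases Int.natAbs_eq_natAbs_iff.1 h4 with h | h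
        · exact h
        · have hu0 : u.1 ≠ 0 := by
            intro h0
            unfold N8 at hu1
            rw [h0] at hu1
            nlinarith [sq_nonneg u.2]
          rw [decide_eq_decide] at h2
          omega
      have h6 : u.2 ^ 2 = v.2 ^ 2 := by
        unfold N8 at hu1 hv1
        rw [h5] at hu1
        linarith
      have h7 : u.2 = v.2 := by
        rcases sq_eq_sq_iff_eq_or_eq_neg.1 h6 with h | h
        · exact h
        · rw [decide_eq_decide] at h3
          omega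
      exact Prod.ext h5 h7
  rw [Finset.card_product, Finset.card_range] at hcard
  have h4 : #(univ : Finset (Bool × Bool)) = 4 := by decide
  rw [h4] at hcard
  have h5 : (Nat.log 2 Y : ℝ) * Real.log 2 ≤ Real.log Y := by
    have h6 : 2 ^ Nat.log 2 Y ≤ Y := Nat.pow_log_le_self 2 (by omega)
    have h7 : ((2 : ℝ)) ^ Nat.log 2 Y ≤ Y := by exact_mod_cast h6
    have h8 := Real.log_le_log (by positivity) h7
    rwa [Real.log_pow] at h8
  have h9 : (1 : ℝ) / 2 ≤ Real.log 2 := by linarith [Real.log_two_gt_d9]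
  have h10 : (Nat.log 2 Y : ℝ) ≤ 2 * Real.log Y := by
    have h11 : (Nat.log 2 Y : ℝ) * (1 / 2) ≤ (Nat.log 2 Y : ℝ) * Real.log 2 :=
      mul_le_mul_of_nonneg_left h9 (Nat.cast_nonneg _)
    linarith
  have h12 : (#{u ∈ Bx Y | N8 u = 1} : ℝ) ≤ (Nat.log 2 Y + 1) * 4 := by exact_mod_cast hcard
  linarith

end Pool.Agent.FI
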